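import Mathlib

set_option autoImplicit false

namespace Pool.Agent.Results.MP_81d777_co.Counterexample

/-- `NewBlue G B` is the set of vertices that can be forced by some vertex when exactly the
vertices of `B` are blue: white vertices `w` that are the only white neighbour of some blue `u`. -/
def NewBlue {V : Type*} (G : SimpleGraph V) (B : Set V) : Set V :=
  {w | w ∉ B ∧ ∃ u ∈ B, G.Adj u w ∧ ∀ x, x ∉ B → G.Adj u x → x = w}

/-- `Blue G B i` is `B^{[i]}`. -/
def Blue {V : Type*} (G : SimpleGraph V) (B : Set V) : ℕ → Set V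
  | 0 => B
  | i + 1 => Blue G B i ∪ NewBlue G (Blue G B i)

/-- `Round G B i` is `B^{(i)}`. -/
def Round {V : Type*} (G : SimpleGraph V) (B : Set V) : ℕ → Set V
  | 0 => B
  | i + 1 => NewBlue G (Blue G B i)

/-- `B` is a forcing set with propagation time `p`: `p` is the largest integer with
`B^{(p)} ≠ ∅`, and `B^{[p]} = V`. -/
def HasPropTime {V : Type*} (G : SimpleGraph V) (B : Set V) (p : ℕ) : Prop :=
  IsGreatest {i | (Round G B i).Nonempty} p ∧ Blue G B p = Set.univ

/-- `B` is a forcing set. -/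
def IsForcing {V : Type*} (G : SimpleGraph V) (B : Set V) : Prop := ∃ p, HasPropTime G B p

/-- `B` is a minimal forcing set. -/
def IsMinForcing {V : Type*} (G : SimpleGraph V) (B : Set V) : Prop :=
  IsForcing G B ∧ ∀ C, C ⊂ B → ¬ IsForcing G C

/-- the upper standard propagation time of `G` is `p` -/
def HasUpperPropTime {V : Type*} (G : SimpleGraph V) (p : ℕ) : Prop :=
  IsGreatest {q | ∃ B, IsMinForcing G B ∧ HasPropTime G B q} p

/-- `S` induces an edgeless graph on at least two vertices. -/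
def EdgelessFactor {V : Type*} (G : SimpleGraph V) (S : Set V) : Prop :=
  2 ≤ S.ncard ∧ ∀ u ∈ S, ∀ v ∈ S, ¬ G.Adj u v

/-- `S` induces the disjoint union of two complete graphs on at least two vertices each. -/
def TwoCliquesFactor {V : Type*} (G : SimpleGraph V) (S : Set V) : Prop :=
  ∃ A C : Set V, A ∪ C = S ∧ Disjoint A C ∧ 2 ≤ A.ncard ∧ 2 ≤ C.ncard ∧
    (∀ u ∈ A, ∀ v ∈ A, u ≠ v → G.Adj u v) ∧ (∀ u ∈ C, ∀ v ∈ C, u ≠ v → G.Adj u v) ∧
    ∀ u ∈ A, ∀ v ∈ C, ¬ G.Adj u v

/-- `G` (a finite graph) is a standard fast join: it has at least two vertices and it is complete,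
or it is the join of `t ≥ 2` graphs (the fibres of `c`), each of them edgeless on at least two
vertices or a disjoint union of two complete graphs on at least two vertices each. -/
def IsStandardFastJoin {V : Type*} (G : SimpleGraph V) : Prop :=
  ((∃ u v : V, u ≠ v) ∧ ∀ u v : V, u ≠ v → G.Adj u v) ∨
    ∃ (t : ℕ) (c : V → Fin t), 2 ≤ t ∧ (∀ u v, c u ≠ c v → G.Adj u v) ∧
      ∀ i, EdgelessFactor G {v | c v = i} ∨ TwoCliquesFactor G {v | c v = i}

/-- The graph `C₆[2K₁]`: the 6-cycle with every vertex doubled. -/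
def doubledHexagon : SimpleGraph (ZMod 6 × ZMod 2) where
  Adj x y := x.1 - y.1 = 1 ∨ y.1 - x.1 = 1
  symm := ⟨fun x y h => h.symm⟩
  loopless := ⟨by
    intro x h
    simp only [sub_self] at h
    revert h
    decide⟩

instance : DecidableRel doubledHexagon.Adj := fun x y => by
  unfold doubledHexagon
  infer_instance

theorem adj_iff (x y : ZMod 6 × ZMod 2) :
    doubledHexagon.Adj x y ↔ (x.1 - y.1 = 1 ∨ y.1 - x.1 = 1) := Iff.rfl

theorem connected : doubledHexagon.Connected := by
  have h0 : ∀ n : ℕ, doubledHexagon.Reachable (0, 0) ((n : ZMod 6), 0) := by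
    intro n
    induction n with
    | zero => simp
    | succ n ih =>
      refine ih.trans (SimpleGraph.Adj.reachable ?_)
      rw [adj_iff]
      right
      push_cast
      ring
  have h1 : ∀ x, doubledHexagon.Reachable (0, 0) x := by
    intro x
    have h2 := h0 (x.1 - 1).val
    rw [ZMod.natCast_zmod_val] at h2
    refine h2.trans (SimpleGraph.Adj.reachable ?_)
    rw [adj_iff]
    right
    simp
  have : Nonempty (ZMod 6 × ZMod 2) := ⟨(0, 0)⟩
  exact ⟨fun x y => (h1 x).symm.trans (h1 y)⟩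

/-- A white fort stays white for ever. -/
theorem fort {V : Type*} {G : SimpleGraph V} {B F : Set V} (hF : F.Nonempty)
    (hB : ∀ x ∈ F, x ∉ B)
    (hfort : ∀ u, u ∉ F → ∀ w ∈ F, G.Adj u w → ∃ w' ∈ F, w' ≠ w ∧ G.Adj u w') :
    ¬ IsForcing G B := by
  have key : ∀ i, ∀ x ∈ F, x ∉ Blue G B i := by
    intro i
    induction i with
    | zero => exact hB
    | succ i ih =>
      intro x hx hxB
      rcases hxB with hxB | ⟨-, u, hu, hux, huniq⟩
      · exact ih x hx hxB
      · obtain ⟨w', hw', hne, hadj⟩ := hfort u (fun huF => ih u huF hu) x hx hux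
        exact hne (huniq w' (ih w' hw') hadj)
  rintro ⟨p, -, hp⟩
  obtain ⟨x, hx⟩ := hF
  exact key p x hx (hp ▸ Set.mem_univ x)

theorem oneOfTwo {B : Set (ZMod 6 × ZMod 2)} (hB : IsForcing doubledHexagon B) (p : ZMod 6) :
    ∃ j, (p, j) ∈ B := by
  by_contra hcon
  push Not at hcon
  refine fort (F := {x : ZMod 6 × ZMod 2 | x.1 = p}) ⟨((p, 0) : ZMod 6 × ZMod 2), rfl⟩ ?_ ?_ hB
  · rintro ⟨a, j⟩ rfl
    exact hcon j
  · rintro u - ⟨a, j⟩ rfl hadj
    refine ⟨(a, j + 1), rfl, ?_, ?_⟩
    · simp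
    · exact hadj

theorem fullClass {B : Set (ZMod 6 × ZMod 2)} (hB : IsForcing doubledHexagon B) (p : ZMod 6) :
    ∃ q, (q = p ∨ q = p + 2 ∨ q = p + 4) ∧ ∀ j, (q, j) ∈ B := by
  by_contra hcon
  push Not at hcon
  have h1 : ∀ q, ∃ j, (q = p ∨ q = p + 2 ∨ q = p + 4) → (q, j) ∉ B := by
    intro q
    by_cases hq : (q = p ∨ q = p + 2 ∨ q = p + 4)
    · obtain ⟨j, hj⟩ := hcon q hq
      exact ⟨j, fun _ => hj⟩
    · exact ⟨0, fun h => (hq h).elim⟩
  choose f hf using h1
  refine fort (F := {x | (x.1 = p ∨ x.1 = p + 2 ∨ x.1 = p + 4) ∧ x.2 = f x.1})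
    ⟨(p, f p), Or.inl rfl, rfl⟩ ?_ ?_ hB
  · rintro ⟨a, j⟩ ⟨ha, hj⟩
    simp only at ha hj
    subst hj
    exact hf a ha
  · rintro ⟨b, k⟩ - ⟨a, j⟩ ⟨ha, hj⟩ hadj
    rw [adj_iff] at hadj
    simp only at ha hj hadj
    have key : ∀ p a b : ZMod 6, (a = p ∨ a = p + 2 ∨ a = p + 4) → (b - a = 1 ∨ a - b = 1) →
        ∃ a', (a' = p ∨ a' = p + 2 ∨ a' = p + 4) ∧ a' ≠ a ∧ (b - a' = 1 ∨ a' - b = 1) := by
      decide
    obtain ⟨a', h1, h2, h3⟩ := key p a b ha hadj
    exact ⟨(a', f a'), ⟨h1, rfl⟩, fun e => h2 (congrArg Prod.fst e), h3⟩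

theorem allForced {B : Set (ZMod 6 × ZMod 2)} (hB : IsForcing doubledHexagon B)
    (w : ZMod 6 × ZMod 2) (hw : w ∉ B) : w ∈ NewBlue doubledHexagon B := by
  obtain ⟨p, i⟩ := w
  refine ⟨hw, ?_⟩
  obtain ⟨q, hq, hqB⟩ := fullClass hB p
  have hqp : q ≠ p := fun e => hw (e ▸ hqB i)
  obtain ⟨i', hi'⟩ := oneOfTwo hB p
  have hii' : ∀ k, k = i ∨ k = i' := by
    have hne : i ≠ i' := fun e => hw (e ▸ hi')
    have key : ∀ i i' : ZMod 2, i ≠ i' → ∀ k, k = i ∨ k = i' := by decide
    exact key i i' hne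
  have huniq : ∀ x : ZMod 6 × ZMod 2, x ∉ B → x.1 = p → x = (p, i) := by
    rintro ⟨a, k⟩ hx rfl
    rcases hii' k with rfl | rfl
    · rfl
    · exact (hx hi').elim
  rcases hq with hq | hq | hq
  · exact (hqp hq).elim
  · obtain ⟨j, hj⟩ := oneOfTwo hB (p + 1)
    refine ⟨(p + 1, j), hj, ?_, ?_⟩
    · rw [adj_iff]; left; simp
    · intro x hx hadj
      rw [adj_iff] at hadj
      have key : ∀ p a : ZMod 6, (p + 1 - a = 1 ∨ a - (p + 1) = 1) → a = p ∨ a = p + 2 := by
        decide
      rcases key p x.1 hadj with h | h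
      · exact huniq x hx h
      · exfalso
        apply hx
        have := hqB x.2
        rw [hq, ← h] at this
        exact this
  · obtain ⟨j, hj⟩ := oneOfTwo hB (p + 5)
    refine ⟨(p + 5, j), hj, ?_, ?_⟩
    · rw [adj_iff]
      have key : ∀ p : ZMod 6, (p + 5 - p = 1 ∨ p - (p + 5) = 1) := by decide
      exact key p
    · intro x hx hadj
      rw [adj_iff] at hadj
      have key : ∀ p a : ZMod 6, (p + 5 - a = 1 ∨ a - (p + 5) = 1) → a = p ∨ a = p + 4 := by
        decide
      rcases key p x.1 hadj with h | h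
      · exact huniq x hx h
      · exfalso
        apply hx
        have := hqB x.2
        rw [hq, ← h] at this
        exact this

theorem newBlue_univ {V : Type*} (G : SimpleGraph V) : NewBlue G Set.univ = ∅ := by
  ext x
  simp [NewBlue]

/-- If every white vertex is forced at once, the propagation time is `1`. -/
theorem hasPropTime_one {V : Type*} {G : SimpleGraph V} {B : Set V} (hne : B ≠ Set.univ)
    (h : ∀ w, w ∉ B → w ∈ NewBlue G B) : HasPropTime G B 1 := by
  have h1 : Blue G B 1 = Set.univ := by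
    ext x
    simp only [Set.mem_univ, iff_true]
    by_cases hx : x ∈ B
    · exact Or.inl hx
    · exact Or.inr (h x hx)
  have h2 : ∀ i, 1 ≤ i → Blue G B i = Set.univ := by
    intro i hi
    induction i with
    | zero => omega
    | succ i ih =>
      rcases Nat.eq_zero_or_pos i with rfl | hi'
      · exact h1
      · show Blue G B i ∪ NewBlue G (Blue G B i) = Set.univ
        rw [ih hi', Set.univ_union]
  refine ⟨⟨?_, ?_⟩, h1⟩
  · obtain ⟨w, hw⟩ := (Set.ne_univ_iff_exists_notMem B).1 hne
    exact ⟨w, h w hw⟩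
  · intro i hi
    by_contra hcon
    push Not at hcon
    obtain ⟨j, rfl⟩ : ∃ j, i = j + 2 := ⟨i - 2, by omega⟩
    have h3 : Round G B (j + 2) = ∅ := by
      show NewBlue G (Blue G B (j + 1)) = ∅
      rw [h2 (j + 1) (by omega), newBlue_univ]
    have h4 : (Round G B (j + 2)).Nonempty := hi
    rw [h3] at h4
    exact Set.not_nonempty_empty h4

theorem upper : HasUpperPropTime doubledHexagon 1 := by
  have hone : ∀ B, IsForcing doubledHexagon B → B ≠ Set.univ → HasPropTime doubledHexagon B 1 :=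
    fun B hB hne => hasPropTime_one hne (allForced hB)
  have hminne : ∀ B, IsMinForcing doubledHexagon B → B ≠ Set.univ := by
    rintro B ⟨-, hB⟩ rfl
    refine hB {(0, 0)}ᶜ ?_ ⟨1, ?_⟩
    · rw [Set.ssubset_univ_iff]
      intro e
      have : ((0, 0) : ZMod 6 × ZMod 2) ∈ ({(0, 0)}ᶜ : Set (ZMod 6 × ZMod 2)) :=
        e ▸ Set.mem_univ _
      exact this rfl
    · refine hasPropTime_one ?_ ?_
      · intro e
        have : ((0, 0) : ZMod 6 × ZMod 2) ∈ ({(0, 0)}ᶜ : Set (ZMod 6 × ZMod 2)) :=
          e ▸ Set.mem_univ _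
        exact this rfl
      · intro w hw
        have hw' : w = (0, 0) := by
          by_contra hne
          exact hw hne
        subst hw'
        refine ⟨hw, (1, 0), ?_, ?_, ?_⟩
        · intro e
          have : ((1, 0) : ZMod 6 × ZMod 2) ≠ (0, 0) := by decide
          exact this e
        · decide
        · intro x hx _
          by_contra hne
          exact hx hne
  constructor
  · -- a minimal forcing set exists
    have hfin : (Set.univ : Set (Set (ZMod 6 × ZMod 2))).Finite := Set.finite_univ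
    have hforc : IsForcing doubledHexagon Set.univ := by
      refine ⟨0, ⟨⟨(0, 0), trivial⟩, ?_⟩, rfl⟩
      intro i hi
      by_contra hcon
      push Not at hcon
      obtain ⟨j, rfl⟩ : ∃ j, i = j + 1 := ⟨i - 1, by omega⟩
      have h2 : ∀ i, Blue doubledHexagon Set.univ i = Set.univ := by
        intro i
        induction i with
        | zero => rfl
        | succ i ih =>
          show Blue doubledHexagon Set.univ i ∪ _ = Set.univ
          rw [ih, Set.univ_union]
      have h3 : Round doubledHexagon Set.univ (j + 1) = ∅ := by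
        show NewBlue doubledHexagon (Blue doubledHexagon Set.univ j) = ∅
        rw [h2 j, newBlue_univ]
      have h4 : (Round doubledHexagon Set.univ (j + 1)).Nonempty := hi
      rw [h3] at h4
      exact Set.not_nonempty_empty h4
    obtain ⟨B, hB⟩ := (Set.toFinite {B | IsForcing doubledHexagon B}).exists_minimal ⟨_, hforc⟩
    have hBmin : IsMinForcing doubledHexagon B := by
      refine ⟨hB.1, ?_⟩
      intro C hC hCf
      exact hC.2 (hB.2 hCf hC.1)
    exact ⟨B, hBmin, hone B hBmin.1 (hminne B hBmin)⟩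
  · rintro q ⟨B, hB, hq⟩
    have h1 := hone B hB.1 (hminne B hB)
    exact (hq.1.unique h1.1).le

theorem notJoin : ¬ IsStandardFastJoin doubledHexagon := by
  rintro (⟨-, h⟩ | ⟨t, c, ht, hc, hf⟩)
  · have := h (0, 0) (0, 1) (by decide)
    revert this
    decide
  · have key : ∀ u v : ZMod 6 × ZMod 2,
        ∃ w, ¬ doubledHexagon.Adj u w ∧ ¬ doubledHexagon.Adj w v := by decide
    have hconst : ∀ u v, c u = c v := by
      intro u v
      obtain ⟨w, h1, h2⟩ := key u v
      have e1 : c u = c w := by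
        by_contra hne
        exact h1 (hc _ _ hne)
      have e2 : c w = c v := by
        by_contra hne
        exact h2 (hc _ _ hne)
      exact e1.trans e2
    have : Nontrivial (Fin t) := Fin.nontrivial_iff_two_le.2 ht
    obtain ⟨i, hi⟩ := exists_ne (c (0, 0))
    have hempty : {v | c v = i} = (∅ : Set (ZMod 6 × ZMod 2)) := by
      ext v
      simp only [Set.mem_empty_iff_false, iff_false]
      intro e
      have e' : c v = i := e
      exact hi (e' ▸ (hconst v (0, 0)))
    rcases hf i with ⟨h, -⟩ | ⟨A, C, h1, -, h2, -⟩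
    · rw [hempty, Set.ncard_empty] at h
      omega
    · rw [hempty, Set.union_empty_iff] at h1
      rw [h1.1, Set.ncard_empty] at h2
      omega

/-- There is a connected graph `G` (on 12 vertices) with upper standard propagation time `1` that
is not a standard fast join. -/
theorem result : ∃ G : SimpleGraph (ZMod 6 × ZMod 2),
    G.Connected ∧ HasUpperPropTime G 1 ∧ ¬ IsStandardFastJoin G :=
  ⟨doubledHexagon, connected, upper, notJoin⟩

end Pool.Agent.Results.MP_81d777_co.Counterexample
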